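import Mathlib

set_option autoImplicit false

namespace Pool.Agent.Results.MP_745574_co.StrongNotWeak

/-- Euclidean `n`-space. -/
abbrev Sp (n : ℕ) : Type := EuclideanSpace ℝ (Fin n)

/-- A convex polytope: the convex hull of a finite set of points. -/
def IsPolytope {n : ℕ} (P : Set (Sp n)) : Prop :=
  ∃ S : Finset (Sp n), P = convexHull ℝ (S : Set (Sp n))

/-- The dimension of (the affine hull of) a nonempty set. -/
noncomputable def dim {n : ℕ} (P : Set (Sp n)) : ℕ := Module.finrank ℝ (vectorSpan ℝ P)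

/-- A `d`-polytope. -/
def IsDPolytope {n : ℕ} (d : ℕ) (P : Set (Sp n)) : Prop :=
  IsPolytope P ∧ P.Nonempty ∧ dim P = d

/-- The set of all faces of `P` (with the empty face and `P` itself), ordered by inclusion. -/
def faces {n : ℕ} (P : Set (Sp n)) : Set (Set (Sp n)) := {F | IsExposed ℝ P F}

/-- The `k`-skeleton of `P`: the faces of dimension at most `k`. -/
def skel {n : ℕ} (k : ℕ) (P : Set (Sp n)) : Set (Set (Sp n)) := {F | IsExposed ℝ P F ∧ dim F ≤ k}

/-- A finite polyhedral complex in `ℝ^n`. -/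
structure Cx (n : ℕ) where
  members : Set (Set (Sp n))
  finite : members.Finite
  polytope : ∀ F ∈ members, IsPolytope F
  face_mem : ∀ F ∈ members, ∀ G, IsExposed ℝ F G → G ∈ members
  inter_face : ∀ F ∈ members, ∀ G ∈ members, IsExposed ℝ F (F ∩ G) ∧ IsExposed ℝ G (F ∩ G)

/-- `C` is a `k`-complex: its dimension is `k`. -/
def IsKComplex {n : ℕ} (k : ℕ) (C : Cx n) : Prop :=
  (∃ F ∈ C.members, F.Nonempty ∧ dim F = k) ∧ ∀ F ∈ C.members, dim F ≤ k

/-- A combinatorial equivalence: a bijection preserving inclusion in both directions. -/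
abbrev CombEquiv {m n : ℕ} (A : Set (Set (Sp m))) (B : Set (Set (Sp n))) : Type := A ≃o B

/-- `C` is strongly `d`-ambiguous. -/
def StronglyAmbiguous {n : ℕ} (k d : ℕ) (C : Cx n) : Prop :=
  ∃ (a b : ℕ) (P : Set (Sp a)) (Q : Set (Sp b)), IsDPolytope d P ∧ IsDPolytope d Q ∧
    ¬ Nonempty (CombEquiv (faces P) (faces Q)) ∧
    Nonempty (CombEquiv C.members (skel k P)) ∧ Nonempty (CombEquiv C.members (skel k Q)) ∧
    Nonempty (CombEquiv (skel k P) (skel k Q))

/-- `C` is weakly `d`-ambiguous. -/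
def WeaklyAmbiguous {n : ℕ} (k d : ℕ) (C : Cx n) : Prop :=
  ∃ (a : ℕ) (P : Set (Sp a)), IsDPolytope d P ∧
    ∃ φ ψ : CombEquiv C.members (skel k P),
      ¬ ∃ θ : CombEquiv (faces P) (faces P), ∀ F : skel k P,
        (θ ⟨F.1, F.2.1⟩).1 = (φ (ψ.symm F)).1

section general

variable {n N : ℕ} (p : Fin N → Sp n)

lemma face_data {F : Set (Sp n)} {A : Set (Sp n)} (hF : IsExposed ℝ (convexHull ℝ A) F)
    (hne : F.Nonempty) :
    ∃ (l : StrongDual ℝ (Sp n)) (M : ℝ), (∀ x ∈ convexHull ℝ A, l x ≤ M) ∧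
      F = {x | x ∈ convexHull ℝ A ∧ l x = M} ∧ F = convexHull ℝ (A ∩ F) := by
  obtain ⟨l, hl⟩ := hF hne
  obtain ⟨x0, hx0⟩ := hne
  have hx0' := hx0
  rw [hl] at hx0'
  have hF' : F = {x | x ∈ convexHull ℝ A ∧ l x = l x0} := by
    rw [hl]
    ext x
    constructor
    · rintro ⟨h1, h2⟩
      exact ⟨h1, le_antisymm (hx0'.2 x h1) (h2 x0 hx0'.1)⟩
    · rintro ⟨h1, h2⟩
      exact ⟨h1, fun y hy => by rw [h2]; exact hx0'.2 y hy⟩
  refine ⟨l, l x0, fun x hx => hx0'.2 x hx, hF', ?_⟩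
  apply Set.Subset.antisymm
  · have key : convexHull ℝ A ⊆ {x | l x ≤ l x0 ∧ (l x = l x0 → x ∈ convexHull ℝ (A ∩ F))} := by
      apply convexHull_min
      · intro x hx
        have hxA : x ∈ convexHull ℝ A := subset_convexHull ℝ A hx
        refine ⟨hx0'.2 x hxA, fun h => subset_convexHull ℝ _ ⟨hx, ?_⟩⟩
        rw [hF']
        exact ⟨hxA, h⟩
      · intro x hx y hy a b ha hb hab
        have hlin : l (a • x + b • y) = a * l x + b * l y := by
          rw [map_add, map_smul, map_smul]; rfl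
        refine ⟨?_, ?_⟩
        · rw [hlin]
          have := mul_le_mul_of_nonneg_left hx.1 ha
          have := mul_le_mul_of_nonneg_left hy.1 hb
          have h3 : a * l x0 + b * l x0 = l x0 := by rw [← add_mul, hab, one_mul]
          linarith
        · intro h
          rw [hlin] at h
          rcases eq_or_lt_of_le ha with ha0 | ha0
          · have hb1 : b = 1 := by linarith
            have ha0' : a = 0 := ha0.symm
            rw [ha0', hb1, zero_mul, one_mul, zero_add] at h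
            rw [ha0', hb1, zero_smul, one_smul, zero_add]
            exact hy.2 h
          · rcases eq_or_lt_of_le hb with hb0 | hb0
            · have ha1 : a = 1 := by linarith
              have hb0' : b = 0 := hb0.symm
              rw [hb0', ha1, zero_mul, one_mul, add_zero] at h
              rw [hb0', ha1, zero_smul, one_smul, add_zero]
              exact hx.2 h
            · have h3 : a * l x0 + b * l x0 = l x0 := by rw [← add_mul, hab, one_mul]
              have hx1 : l x = l x0 := by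
                by_contra hne
                have : l x < l x0 := lt_of_le_of_ne hx.1 hne
                have := mul_lt_mul_of_pos_left this ha0
                have := mul_le_mul_of_nonneg_left hy.1 hb
                linarith
              have hy1 : l y = l x0 := by
                by_contra hne
                have : l y < l x0 := lt_of_le_of_ne hy.1 hne
                have := mul_lt_mul_of_pos_left this hb0
                have := mul_le_mul_of_nonneg_left hx.1 ha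
                linarith
              exact (convex_convexHull ℝ _) (hx.2 hx1) (hy.2 hy1) ha hb hab
    intro x hx
    have hx' := hx
    rw [hF'] at hx'
    exact (key hx'.1).2 hx'.2
  · apply convexHull_min (Set.inter_subset_right)
    rw [hF']
    intro x hx y hy a b ha hb hab
    refine ⟨(convex_convexHull ℝ _) hx.1 hy.1 ha hb hab, ?_⟩
    rw [map_add, map_smul, map_smul, hx.2, hy.2, ← add_smul, hab, one_smul]

/-- The convex hull of the points with indices in `s`. -/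
def hull (s : Finset (Fin N)) : Set (Sp n) := convexHull ℝ (p '' (s : Set (Fin N)))

open Classical in
/-- the indices of the points in `F` -/
noncomputable def ind (F : Set (Sp n)) : Finset (Fin N) := Finset.univ.filter fun k => p k ∈ F

lemma mem_ind (F : Set (Sp n)) (k : Fin N) : k ∈ ind p F ↔ p k ∈ F := by
  simp [ind]

/-- The whole polytope. -/
def poly : Set (Sp n) := convexHull ℝ (Set.range p)

lemma eq_hull {F : Set (Sp n)} (hF : IsExposed ℝ (poly p) F) : F = hull p (ind p F) := by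
  rcases F.eq_empty_or_nonempty with h | h
  · have : ind p F = ∅ := by
      apply Finset.eq_empty_of_forall_notMem
      intro k hk
      rw [mem_ind, h] at hk
      exact hk
    rw [this, h]
    simp [hull]
  · obtain ⟨l, M, h1, h2, h3⟩ := face_data hF h
    have h4 : Set.range p ∩ F = p '' (ind p F : Set (Fin N)) := by
      ext x
      constructor
      · rintro ⟨⟨k, rfl⟩, hk⟩
        exact ⟨k, by simpa using (mem_ind p F k).2 hk, rfl⟩
      · rintro ⟨k, hk, rfl⟩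
        exact ⟨⟨k, rfl⟩, (mem_ind p F k).1 (by simpa using hk)⟩
    rw [h4] at h3
    exact h3

lemma subset_iff {F G : Set (Sp n)} (hF : IsExposed ℝ (poly p) F) (hG : IsExposed ℝ (poly p) G) :
    F ⊆ G ↔ ∀ k, p k ∈ F → p k ∈ G := by
  constructor
  · intro h k hk
    exact h hk
  · intro h
    rw [eq_hull p hF, eq_hull p hG]
    apply convexHull_mono
    apply Set.image_mono
    intro k hk
    have h1 : k ∈ ind p F := by simpa using hk
    have h2 : k ∈ ind p G := (mem_ind p G k).2 (h k ((mem_ind p F k).1 h1))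
    simpa using h2

/-- exposing the hull of a set of vertices by a functional -/
lemma exposed_of_functional (s : Finset (Fin N)) (l : StrongDual ℝ (Sp n)) (M : ℝ)
    (h1 : ∀ k ∈ s, l (p k) = M) (h2 : ∀ k ∉ s, l (p k) < M) :
    IsExposed ℝ (poly p) (hull p s) ∧ ind p (hull p s) = s := by
  have hle : ∀ x ∈ poly p, l x ≤ M := by
    intro x hx
    have : poly p ⊆ {x | l x ≤ M} := by
      apply convexHull_min
      · rintro _ ⟨k, rfl⟩
        by_cases hk : k ∈ s
        · exact (h1 k hk).le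
        · exact (h2 k hk).le
      · exact convex_halfSpace_le (l.toLinearMap.isLinear) M
    exact this hx
  have hsub : hull p s ⊆ {x | x ∈ poly p ∧ l x = M} := by
    apply convexHull_min
    · rintro _ ⟨k, hk, rfl⟩
      exact ⟨subset_convexHull ℝ _ ⟨k, rfl⟩, h1 k (by simpa using hk)⟩
    · intro x hx y hy a b ha hb hab
      refine ⟨(convex_convexHull ℝ _) hx.1 hy.1 ha hb hab, ?_⟩
      rw [map_add, map_smul, map_smul, hx.2, hy.2, ← add_smul, hab, one_smul]
  have hexp : IsExposed ℝ (poly p) {x | x ∈ poly p ∧ l x = M} := by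
    rintro ⟨x0, hx0⟩
    refine ⟨l, ?_⟩
    ext x
    constructor
    · rintro ⟨hx, hx'⟩
      exact ⟨hx, fun y hy => by rw [hx']; exact hle y hy⟩
    · rintro ⟨hx, hx'⟩
      refine ⟨hx, le_antisymm (hle x hx) ?_⟩
      have := hx' x0 hx0.1
      rw [hx0.2] at this
      exact this
  have hind : ind p {x | x ∈ poly p ∧ l x = M} = s := by
    ext k
    rw [mem_ind]
    constructor
    · rintro ⟨_, hk⟩
      by_contra hks
      exact absurd hk (h2 k hks).ne
    · intro hk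
      exact ⟨subset_convexHull ℝ _ ⟨k, rfl⟩, h1 k hk⟩
  have heq := eq_hull p hexp
  rw [hind] at heq
  rw [← heq]
  exact ⟨hexp, hind⟩

/-- Certificate that the graph of `poly p` has the edges given by `adj`. -/
structure Cert (p : Fin N → Sp n) (adj : Fin N → Fin N → Bool) : Prop where
  vert : ∀ i, ∃ l : StrongDual ℝ (Sp n), ∀ k, k ≠ i → l (p k) < l (p i)
  edge : ∀ i j, adj i j = true → i ≠ j ∧ ∃ l : StrongDual ℝ (Sp n), l (p j) = l (p i) ∧
    ∀ k, k ≠ i → k ≠ j → l (p k) < l (p i)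
  nonedge : ∀ i j, i ≠ j → adj i j = false → ∃ u : Fin N → ℝ,
    (∀ l : StrongDual ℝ (Sp n), ∑ k, u k * l (p k) = 0) ∧ ∑ k, u k = 0 ∧ u i < 0 ∧
      ∀ k, k ≠ i → k ≠ j → 0 ≤ u k

variable {p}
variable {adj : Fin N → Fin N → Bool}

lemma third (hc : Cert p adj) {F : Set (Sp n)} (hF : IsExposed ℝ (poly p) F) {i j : Fin N}
    (hij : i ≠ j) (hi : p i ∈ F) (hj : p j ∈ F) (hadj : adj i j = false) :
    ∃ k, k ≠ i ∧ k ≠ j ∧ p k ∈ F := by
  obtain ⟨l, M, h1, h2, h3⟩ := face_data hF ⟨_, hi⟩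
  obtain ⟨u, hu1, hu2, hu3, hu4⟩ := hc.nonedge i j hij hadj
  have hval : ∀ k, p k ∈ F ↔ l (p k) = M := by
    intro k
    rw [h2]
    exact ⟨fun h => h.2, fun h => ⟨subset_convexHull ℝ _ ⟨k, rfl⟩, h⟩⟩
  have hle : ∀ k, l (p k) ≤ M := fun k => h1 _ (subset_convexHull ℝ _ ⟨k, rfl⟩)
  by_contra hcon
  push Not at hcon
  have hsum : ∑ k, u k * (M - l (p k)) = 0 := by
    simp only [mul_sub, Finset.sum_sub_distrib, ← Finset.sum_mul, hu2, hu1 l]
    simp
  have hnn : ∀ k ∈ Finset.univ, 0 ≤ u k * (M - l (p k)) := by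
    intro k _
    by_cases hki : k = i
    · rw [hki, (hval i).1 hi]; simp
    · by_cases hkj : k = j
      · rw [hkj, (hval j).1 hj]; simp
      · exact mul_nonneg (hu4 k hki hkj) (sub_nonneg.2 (hle k))
  have hz := (Finset.sum_eq_zero_iff_of_nonneg hnn).1 hsum
  have hu0 : ∀ k, k ≠ i → k ≠ j → u k = 0 := by
    intro k hki hkj
    have h4 := hz k (Finset.mem_univ k)
    rcases mul_eq_zero.1 h4 with h5 | h5
    · exact h5
    · exfalso
      exact hcon k hki hkj ((hval k).2 (by linarith))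
  -- now only `i` and `j` can carry weight
  have hsum2 : u i + u j = 0 := by
    have h6 : ∑ k, u k = u i + u j := by
      apply Fintype.sum_eq_add i j hij
      rintro k ⟨hki, hkj⟩
      exact hu0 k hki hkj
    rw [← h6, hu2]
  obtain ⟨l', hl'⟩ := hc.vert i
  have h7 := hu1 l'
  have h8 : ∑ k, u k * l' (p k) = u i * l' (p i) + u j * l' (p j) := by
    apply Fintype.sum_eq_add i j hij
    rintro k ⟨hki, hkj⟩
    rw [hu0 k hki hkj, zero_mul]
  rw [h8] at h7
  have h9 : u j = - u i := by linarith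
  rw [h9] at h7
  have h10 : u i * (l' (p i) - l' (p j)) = 0 := by linarith
  rcases mul_eq_zero.1 h10 with h11 | h11
  · linarith
  · have := hl' j (Ne.symm hij)
    linarith

lemma card_le_two (hc : Cert p adj) {F : Set (Sp n)} (hd : dim F ≤ 1) : (ind p F).card ≤ 2 := by
  by_contra h
  push Not at h
  obtain ⟨a, ha, b, hb, c, hc', hab, hac, hbc⟩ := Finset.two_lt_card.1 h
  rw [mem_ind] at ha hb hc'
  have hcol : Collinear ℝ F := collinear_iff_finrank_le_one.2 hd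
  have hcol3 : Collinear ℝ ({p a, p b, p c} : Set (Sp n)) := by
    apply hcol.subset
    rintro x (rfl | rfl | rfl) <;> assumption
  have key : ∀ x y z : Fin N, x ≠ y → z ≠ y → ¬ Wbtw ℝ (p x) (p y) (p z) := by
    rintro x y z hxy hzy ⟨t, ⟨ht0, ht1⟩, ht⟩
    obtain ⟨l, hl⟩ := hc.vert y
    have h1 := hl x hxy
    have h2 := hl z hzy
    have h3 : l (p y) = (1 - t) * l (p x) + t * l (p z) := by
      rw [← ht, AffineMap.lineMap_apply_module, map_add, map_smul, map_smul]; rfl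
    have h4 : (1 - t) * l (p x) ≤ (1 - t) * l (p y) :=
      mul_le_mul_of_nonneg_left h1.le (by linarith)
    have h5 : t * l (p z) ≤ t * l (p y) := mul_le_mul_of_nonneg_left h2.le ht0
    rcases eq_or_lt_of_le ht0 with h6 | h6
    · rw [← h6] at h3; simp at h3; linarith
    · have := mul_lt_mul_of_pos_left h2 h6
      nlinarith
  rcases hcol3.wbtw_or_wbtw_or_wbtw with h1 | h1 | h1
  · exact key a b c hab hbc.symm h1
  · exact key b c a hbc hac h1
  · exact key c a b hac.symm hab.symm h1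

/-- `s` is a clique with at most two elements -/
def Clq (adj : Fin N → Fin N → Bool) (s : Finset (Fin N)) : Prop :=
  s.card ≤ 2 ∧ ∀ i ∈ s, ∀ j ∈ s, i ≠ j → adj i j = true

lemma clq_of_skel (hc : Cert p adj) {F : Set (Sp n)} (hF : F ∈ skel 1 (poly p)) :
    Clq adj (ind p F) := by
  have h2 := card_le_two hc hF.2
  refine ⟨h2, ?_⟩
  intro i hi j hj hij
  by_contra hadj
  have hadj' : adj i j = false := by simpa using hadj
  obtain ⟨k, hki, hkj, hk⟩ := third hc hF.1 hij ((mem_ind p F i).1 hi) ((mem_ind p F j).1 hj) hadj'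
  have h3 : ({i, j, k} : Finset (Fin N)) ⊆ ind p F := by
    intro x hx
    simp only [Finset.mem_insert, Finset.mem_singleton] at hx
    rcases hx with rfl | rfl | rfl
    · exact hi
    · exact hj
    · exact (mem_ind p F _).2 hk
  have h4 := Finset.card_le_card h3
  rw [Finset.card_eq_three.2 ⟨i, j, k, hij, hki.symm, hkj.symm, rfl⟩] at h4
  omega

lemma dim_hull_le (s : Finset (Fin N)) (m : ℕ) (hs : s.card ≤ m + 1) : dim (hull p s) ≤ m := by
  unfold dim hull
  rw [← direction_affineSpan, affineSpan_convexHull, direction_affineSpan]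
  rcases s.eq_empty_or_nonempty with h | h
  · subst h
    have h0 : vectorSpan ℝ (p '' ((∅ : Finset (Fin N)) : Set (Fin N))) = ⊥ := by
      rw [Finset.coe_empty, Set.image_empty, vectorSpan_empty]
    rw [h0, finrank_bot]
    exact Nat.zero_le m
  · obtain ⟨c, hc⟩ : ∃ c, s.card = c + 1 := ⟨s.card - 1, by have := h.card_pos; omega⟩
    classical
    have := finrank_vectorSpan_image_finset_le ℝ p s hc
    rw [Finset.coe_image] at this
    omega

lemma skel_of_clq (hc : Cert p adj) {s : Finset (Fin N)} (hs : Clq adj s) :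
    hull p s ∈ skel 1 (poly p) ∧ ind p (hull p s) = s := by
  have hd : dim (hull p s) ≤ 1 := dim_hull_le s 1 hs.1
  have hcases : s.card = 0 ∨ s.card = 1 ∨ s.card = 2 := by have := hs.1; omega
  rcases hcases with h | h | h
  · rw [Finset.card_eq_zero] at h
    subst h
    refine ⟨⟨?_, hd⟩, ?_⟩
    · have : hull p (∅ : Finset (Fin N)) = ∅ := by simp [hull]
      rw [this]
      exact isExposed_empty
    · ext k
      simp [mem_ind, hull]
  · obtain ⟨i, rfl⟩ := Finset.card_eq_one.1 h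
    obtain ⟨l, hl⟩ := hc.vert i
    have := exposed_of_functional p {i} l (l (p i)) (by
      intro k hk; rw [Finset.mem_singleton.1 hk]) (by
      intro k hk; exact hl k (by simpa using hk))
    exact ⟨⟨this.1, hd⟩, this.2⟩
  · obtain ⟨i, j, hij, rfl⟩ := Finset.card_eq_two.1 h
    obtain ⟨-, l, hl1, hl2⟩ := hc.edge i j (hs.2 i (by simp) j (by simp) hij)
    have := exposed_of_functional p {i, j} l (l (p i)) (by
      intro k hk
      simp only [Finset.mem_insert, Finset.mem_singleton] at hk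
      rcases hk with rfl | rfl
      · rfl
      · exact hl1) (by
      intro k hk
      simp only [Finset.mem_insert, Finset.mem_singleton, not_or] at hk
      exact hl2 k hk.1 hk.2)
    exact ⟨⟨this.1, hd⟩, this.2⟩

/-- properties of a family of faces used to recover the graph -/
structure Fam (A : Set (Set (Sp n))) (p : Fin N → Sp n) (adj : Fin N → Fin N → Bool) : Prop where
  empty : ∅ ∈ A
  vert : ∀ i, ∃ F ∈ A, ∀ k, p k ∈ F ↔ k = i
  ne : ∀ F ∈ A, F.Nonempty → ∃ k, p k ∈ F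
  sub : ∀ F ∈ A, ∀ G ∈ A, (F ⊆ G ↔ ∀ k, p k ∈ F → p k ∈ G)
  edge : ∀ i j, adj i j = true ↔ (i ≠ j ∧ ∃ F ∈ A, ∀ k, p k ∈ F ↔ (k = i ∨ k = j))

lemma nonempty_ind {F : Set (Sp n)} (hF : IsExposed ℝ (poly p) F) (hne : F.Nonempty) :
    ∃ k, p k ∈ F := by
  by_contra h
  push Not at h
  have h1 : ind p F = ∅ := by
    apply Finset.eq_empty_of_forall_notMem
    intro k hk
    exact h k ((mem_ind p F k).1 hk)
  have h2 := eq_hull p hF
  rw [h1] at h2
  have h3 : hull p (∅ : Finset (Fin N)) = ∅ := by simp [hull]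
  rw [h3] at h2
  rw [h2] at hne
  exact Set.not_nonempty_empty hne

lemma fam_of_subfamily (hc : Cert p adj) (A : Set (Set (Sp n))) (hA : A ⊆ faces (poly p))
    (hA' : skel 1 (poly p) ⊆ A) : Fam A p adj := by
  refine ⟨?_, ?_, ?_, ?_, ?_⟩
  · apply hA'
    have h := (skel_of_clq hc (s := ∅) ⟨by simp, by simp⟩).1
    have h3 : hull p (∅ : Finset (Fin N)) = ∅ := by simp [hull]
    rwa [h3] at h
  · intro i
    have h := skel_of_clq hc (s := {i}) ⟨by simp, by
      intro a ha b hb hab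
      rw [Finset.mem_singleton.1 ha, Finset.mem_singleton.1 hb] at hab
      exact absurd rfl hab⟩
    refine ⟨_, hA' h.1, fun k => ?_⟩
    rw [← mem_ind, h.2, Finset.mem_singleton]
  · intro F hF hne
    exact nonempty_ind (hA hF) hne
  · intro F hF G hG
    exact subset_iff p (hA hF) (hA hG)
  · intro i j
    constructor
    · intro hij
      have hne := (hc.edge i j hij).1
      have hji : adj j i = true := by
        by_contra hcon
        have hcon' : adj j i = false := by simpa using hcon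
        obtain ⟨-, l, hl1, hl2⟩ := hc.edge i j hij
        have h5 := exposed_of_functional p {i, j} l (l (p i)) (by
          intro k hk
          simp only [Finset.mem_insert, Finset.mem_singleton] at hk
          rcases hk with rfl | rfl
          · rfl
          · exact hl1) (by
          intro k hk
          simp only [Finset.mem_insert, Finset.mem_singleton, not_or] at hk
          exact hl2 k hk.1 hk.2)
        have hi : p i ∈ hull p {i, j} := by rw [← mem_ind, h5.2]; simp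
        have hj : p j ∈ hull p {i, j} := by rw [← mem_ind, h5.2]; simp
        obtain ⟨k, hk1, hk2, hk3⟩ := third hc h5.1 hne.symm hj hi hcon'
        rw [← mem_ind, h5.2] at hk3
        simp only [Finset.mem_insert, Finset.mem_singleton] at hk3
        tauto
      have h := skel_of_clq hc (s := {i, j}) ⟨Finset.card_le_two, by
        intro a ha b hb hab
        simp only [Finset.mem_insert, Finset.mem_singleton] at ha hb
        rcases ha with rfl | rfl <;> rcases hb with rfl | rfl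
        · exact absurd rfl hab
        · exact hij
        · exact hji
        · exact absurd rfl hab⟩
      refine ⟨hne, _, hA' h.1, fun k => ?_⟩
      rw [← mem_ind, h.2]
      simp
    · rintro ⟨hij, F, hF, hk⟩
      by_contra hcon
      have hcon' : adj i j = false := by simpa using hcon
      obtain ⟨k, hki, hkj, hk'⟩ := third hc (hA hF) hij ((hk i).2 (Or.inl rfl))
        ((hk j).2 (Or.inr rfl)) hcon'
      rcases (hk k).1 hk' with h | h
      · exact hki h
      · exact hkj h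

end general

section rigid

variable {a b N : ℕ} {A : Set (Set (Sp a))} {B : Set (Set (Sp b))} {p : Fin N → Sp a}
  {q : Fin N → Sp b} {adj : Fin N → Fin N → Bool}

/-- An order isomorphism between two families with the same asymmetric graph fixes the vertices. -/
lemma rigid (hA : Fam A p adj) (hB : Fam B q adj)
    (hasym : ∀ τ : Fin N → Fin N, Function.Injective τ → (∀ i j, adj (τ i) (τ j) = adj i j) →
      ∀ i, τ i = i)
    (Θ : CombEquiv A B) (F : A) (k : Fin N) : p k ∈ F.1 ↔ q k ∈ (Θ F).1 := by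
  choose V hV hV' using hA.vert
  choose W hW hW' using hB.vert
  have h1 : ∀ i, ∃ j, Θ ⟨V i, hV i⟩ = ⟨W j, hW j⟩ := by
    intro i
    have hne : (Θ ⟨V i, hV i⟩).1.Nonempty := by
      by_contra hcon
      rw [Set.not_nonempty_iff_eq_empty] at hcon
      have h2 : Θ ⟨V i, hV i⟩ ≤ Θ ⟨∅, hA.empty⟩ := by
        show (Θ ⟨V i, hV i⟩).1 ⊆ (Θ ⟨∅, hA.empty⟩).1
        rw [hcon]
        exact Set.empty_subset _
      have h3 : V i ⊆ ∅ := Θ.le_iff_le.1 h2
      exact h3 ((hV' i i).2 rfl)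
    obtain ⟨j, hj⟩ := hB.ne _ (Θ ⟨V i, hV i⟩).2 hne
    refine ⟨j, ?_⟩
    have h4 : W j ⊆ (Θ ⟨V i, hV i⟩).1 := by
      rw [hB.sub _ (hW j) _ (Θ ⟨V i, hV i⟩).2]
      intro k hk
      rw [(hW' j k).1 hk]
      exact hj
    have h5 : Θ.symm ⟨W j, hW j⟩ ≤ ⟨V i, hV i⟩ := by
      rw [Θ.symm_apply_le]
      exact h4
    have h6 : (Θ.symm ⟨W j, hW j⟩).1.Nonempty := by
      by_contra hcon
      rw [Set.not_nonempty_iff_eq_empty] at hcon
      have h7 : Θ.symm ⟨W j, hW j⟩ ≤ Θ.symm ⟨∅, hB.empty⟩ := by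
        show (Θ.symm ⟨W j, hW j⟩).1 ⊆ (Θ.symm ⟨∅, hB.empty⟩).1
        rw [hcon]
        exact Set.empty_subset _
      have h8 : W j ⊆ ∅ := Θ.symm.le_iff_le.1 h7
      exact h8 ((hW' j j).2 rfl)
    obtain ⟨m, hm⟩ := hA.ne _ (Θ.symm ⟨W j, hW j⟩).2 h6
    have h9 : m = i := (hV' i m).1 (h5 hm)
    have h10 : V i ⊆ (Θ.symm ⟨W j, hW j⟩).1 := by
      rw [hA.sub _ (hV i) _ (Θ.symm ⟨W j, hW j⟩).2]
      intro k hk
      rw [(hV' i k).1 hk, ← h9]
      exact hm
    have h11 : Θ.symm ⟨W j, hW j⟩ = ⟨V i, hV i⟩ := le_antisymm h5 h10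
    rw [← h11, Θ.apply_symm_apply]
  choose τ hτ using h1
  have hmem : ∀ (F : A) (i : Fin N), p i ∈ F.1 ↔ q (τ i) ∈ (Θ F).1 := by
    intro F i
    have e1 : p i ∈ F.1 ↔ (⟨V i, hV i⟩ : A) ≤ F := by
      show p i ∈ F.1 ↔ V i ⊆ F.1
      rw [hA.sub _ (hV i) _ F.2]
      constructor
      · intro h k hk
        rw [(hV' i k).1 hk]; exact h
      · intro h
        exact h i ((hV' i i).2 rfl)
    have e2 : q (τ i) ∈ (Θ F).1 ↔ (⟨W (τ i), hW (τ i)⟩ : B) ≤ Θ F := by
      show q (τ i) ∈ (Θ F).1 ↔ W (τ i) ⊆ (Θ F).1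
      rw [hB.sub _ (hW (τ i)) _ (Θ F).2]
      constructor
      · intro h k hk
        rw [(hW' (τ i) k).1 hk]; exact h
      · intro h
        exact h (τ i) ((hW' (τ i) (τ i)).2 rfl)
    rw [e1, e2, ← hτ i, Θ.le_iff_le]
  have hinj : Function.Injective τ := by
    intro i j hij
    have h2 : Θ ⟨V i, hV i⟩ = Θ ⟨V j, hV j⟩ := by
      rw [hτ i, hτ j, hij]
    have h3 := Θ.injective h2
    have h4 : V i = V j := congrArg Subtype.val h3
    have h5 : p i ∈ V j := by rw [← h4]; exact (hV' i i).2 rfl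
    exact (hV' j i).1 h5
  have hsurj : Function.Surjective τ := Finite.surjective_of_injective hinj
  have hadj : ∀ i j, adj (τ i) (τ j) = adj i j := by
    intro i j
    rw [Bool.eq_iff_iff, hB.edge, hA.edge]
    constructor
    · rintro ⟨hne, G, hG, hGk⟩
      refine ⟨fun h => hne (by rw [h]), (Θ.symm ⟨G, hG⟩).1, (Θ.symm ⟨G, hG⟩).2, ?_⟩
      intro k
      rw [hmem (Θ.symm ⟨G, hG⟩) k, Θ.apply_symm_apply, hGk, hinj.eq_iff, hinj.eq_iff]
    · rintro ⟨hne, G, hG, hGk⟩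
      refine ⟨fun h => hne (hinj h), (Θ ⟨G, hG⟩).1, (Θ ⟨G, hG⟩).2, ?_⟩
      intro k
      obtain ⟨k, rfl⟩ := hsurj k
      rw [← hmem ⟨G, hG⟩ k, hGk, hinj.eq_iff, hinj.eq_iff]
  have hid := hasym τ hinj hadj
  rw [hmem F k, hid k]

end rigid

section numeric

/-- a point with integer coordinates -/
noncomputable def pt (x : Fin 8 → Fin 4 → ℤ) (i : Fin 8) : Sp 4 :=
  WithLp.toLp 2 (fun c => (x i c : ℝ))

/-- a functional with integer coefficients -/
noncomputable def lin (f : Fin 4 → ℤ) : StrongDual ℝ (Sp 4) :=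
  ∑ c, (f c : ℝ) • (EuclideanSpace.proj c : Sp 4 →L[ℝ] ℝ)

lemma lin_pt (f : Fin 4 → ℤ) (x : Fin 8 → Fin 4 → ℤ) (i : Fin 8) :
    lin f (pt x i) = ((∑ c, f c * x i c : ℤ) : ℝ) := by
  simp [lin, pt]

lemma cert_of_data (x : Fin 8 → Fin 4 → ℤ) (f : Fin 8 → Fin 8 → Fin 4 → ℤ)
    (u : Fin 8 → Fin 8 → Fin 8 → ℤ) (adj : Fin 8 → Fin 8 → Bool)
    (h1 : ∀ i k, k ≠ i → ∑ c, f i i c * x k c < ∑ c, f i i c * x i c)
    (h2 : ∀ i j, adj i j = true → i ≠ j ∧ ∑ c, f i j c * x j c = ∑ c, f i j c * x i c ∧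
      ∀ k, k ≠ i → k ≠ j → ∑ c, f i j c * x k c < ∑ c, f i j c * x i c)
    (h3 : ∀ i j, i ≠ j → adj i j = false → (∀ c, ∑ k, u i j k * x k c = 0) ∧
      ∑ k, u i j k = 0 ∧ u i j i < 0 ∧ ∀ k, k ≠ i → k ≠ j → 0 ≤ u i j k) :
    Cert (pt x) adj := by
  refine ⟨?_, ?_, ?_⟩
  · intro i
    refine ⟨lin (f i i), fun k hk => ?_⟩
    rw [lin_pt, lin_pt]
    exact_mod_cast h1 i k hk
  · intro i j hij
    obtain ⟨h4, h5, h6⟩ := h2 i j hij
    refine ⟨h4, lin (f i j), ?_, fun k hk hk' => ?_⟩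
    · rw [lin_pt, lin_pt]
      exact_mod_cast h5
    · rw [lin_pt, lin_pt]
      exact_mod_cast h6 k hk hk'
  · intro i j hij hadj
    obtain ⟨h4, h5, h6, h7⟩ := h3 i j hij hadj
    refine ⟨fun k => (u i j k : ℝ), ?_, ?_, ?_, ?_⟩
    · intro l
      have h8 : ∑ k, (u i j k : ℝ) • pt x k = 0 := by
        ext c
        have h9 := h4 c
        have h10 : ((∑ k, u i j k * x k c : ℤ) : ℝ) = 0 := by rw [h9]; simp
        push_cast at h10
        simpa [pt] using h10
      have h11 : l (∑ k, (u i j k : ℝ) • pt x k) = ∑ k, (u i j k : ℝ) * l (pt x k) := by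
        rw [map_sum]
        refine Finset.sum_congr rfl fun k _ => ?_
        rw [map_smul, smul_eq_mul]
      rw [← h11, h8, map_zero]
    · show ∑ k, (u i j k : ℝ) = 0
      exact_mod_cast h5
    · show (u i j i : ℝ) < 0
      exact_mod_cast h6
    · intro k hk hk'
      show (0 : ℝ) ≤ (u i j k : ℝ)
      exact_mod_cast h7 k hk hk'

lemma span_top (x : Fin 8 → Fin 4 → ℤ) (c : Fin 4 → Fin 8 → ℤ) (D : ℤ) (hD : D ≠ 0)
    (h1 : ∀ m, ∑ k, c m k = 0) (h2 : ∀ m j, ∑ k, c m k * x k j = if j = m then D else 0) :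
    vectorSpan ℝ (poly (pt x)) = ⊤ := by
  rw [eq_top_iff]
  intro v _
  have hD' : (D : ℝ) ≠ 0 := by exact_mod_cast hD
  have hv : v = ∑ m, (v m / D) • ∑ k, (c m k : ℝ) • (pt x k - pt x 0) := by
    have h3 : ∀ m, ∑ k, (c m k : ℝ) • (pt x k - pt x 0) = ∑ k, (c m k : ℝ) • pt x k := by
      intro m
      simp only [smul_sub, Finset.sum_sub_distrib, ← Finset.sum_smul]
      have h4 : ∑ k, (c m k : ℝ) = 0 := by exact_mod_cast h1 m
      rw [h4, zero_smul, sub_zero]
    simp only [h3]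
    ext j
    have h5 : ∀ m, (∑ k, (c m k : ℝ) • pt x k) j = if j = m then (D : ℝ) else 0 := by
      intro m
      have h6 : ((∑ k, c m k * x k j : ℤ) : ℝ) = ((if j = m then D else 0 : ℤ) : ℝ) := by
        rw [h2 m j]
      push_cast at h6
      simpa [pt] using h6
    have h7 : (∑ m, (v m / D) • ∑ k, (c m k : ℝ) • pt x k) j =
        ∑ m, (v m / D) * (∑ k, (c m k : ℝ) • pt x k) j := by
      simp
    rw [h7]
    simp only [h5]
    simp [hD']
  rw [hv]
  refine Submodule.sum_mem _ fun m _ => Submodule.smul_mem _ _ ?_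
  refine Submodule.sum_mem _ fun k _ => Submodule.smul_mem _ _ ?_
  exact vsub_mem_vectorSpan ℝ (subset_convexHull ℝ _ ⟨k, rfl⟩) (subset_convexHull ℝ _ ⟨0, rfl⟩)

lemma poly_polytope (x : Fin 8 → Fin 4 → ℤ) (h : vectorSpan ℝ (poly (pt x)) = ⊤) :
    IsDPolytope 4 (poly (pt x)) := by
  classical
  refine ⟨⟨Finset.univ.image (pt x), ?_⟩, ⟨pt x 0, subset_convexHull ℝ _ ⟨0, rfl⟩⟩, ?_⟩
  · simp [poly]
  · unfold dim
    rw [h, finrank_top]
    simp

/-- the adjacency matrix of the common graph -/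
def adj : Fin 8 → Fin 8 → Bool :=
  ![![false, true, true, false, false, true, false, true],
    ![true, false, false, false, true, false, true, true],
    ![true, false, false, false, false, true, true, true],
    ![false, false, false, false, true, true, true, true],
    ![false, true, false, true, false, true, true, true],
    ![true, false, true, true, true, false, true, true],
    ![false, true, true, true, true, true, false, true],
    ![true, true, true, true, true, true, true, false]]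

/-- the vertices of the P polytope -/
def xP : Fin 8 → Fin 4 → ℤ :=
  ![![0, 2, 2, 0],
    ![0, 2, 0, 1],
    ![0, 1, 2, 0],
    ![2, 0, 1, 1],
    ![1, 1, 0, 1],
    ![2, 0, 2, 0],
    ![0, 0, 0, 1],
    ![1, 2, 2, 2]]

/-- exposing functionals of vertices and edges -/
def fP : Fin 8 → Fin 8 → Fin 4 → ℤ :=
  ![![![-1, 1, 0, -1],
    ![-1, 1, 0, 0],
    ![-1, 0, 0, -1],
    ![0, 0, 0, 0],
    ![0, 0, 0, 0],
    ![1, 1, 0, -1],
    ![0, 0, 0, 0],
    ![0, 1, 1, 0]],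
   ![![-1, 1, 0, 0],
    ![-1, 1, -1, -1],
    ![0, 0, 0, 0],
    ![0, 0, 0, 0],
    ![1, 1, -1, -1],
    ![0, 0, 0, 0],
    ![-1, 0, -1, -1],
    ![-1, 1, 0, 1]],
   ![![-1, 0, 0, -1],
    ![0, 0, 0, 0],
    ![-1, -1, 1, -1],
    ![0, 0, 0, 0],
    ![0, 0, 0, 0],
    ![-1, -2, 1, -2],
    ![-1, -1, 0, -1],
    ![-1, -1, 2, 1]],
   ![![0, 0, 0, 0],
    ![0, 0, 0, 0],
    ![0, 0, 0, 0],
    ![1, -1, -1, 0],
    ![1, 0, -1, 0],
    ![1, -1, -1, -1],
    ![0, -1, 0, 1],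
    ![1, 0, 0, 1]],
   ![![0, 0, 0, 0],
    ![1, 1, -1, -1],
    ![0, 0, 0, 0],
    ![1, 0, -1, 0],
    ![1, 0, -2, -2],
    ![1, 0, -2, -3],
    ![1, -1, -3, -3],
    ![2, 1, -2, 3]],
   ![![1, 1, 0, -1],
    ![0, 0, 0, 0],
    ![-1, -2, 1, -2],
    ![1, -1, -1, -1],
    ![1, 0, -2, -3],
    ![0, -1, 0, -1],
    ![0, -2, -1, -2],
    ![0, -1, 2, 1]],
   ![![0, 0, 0, 0],
    ![-1, 0, -1, -1],
    ![-1, -1, 0, -1],
    ![0, -1, 0, 1],
    ![1, -1, -3, -3],
    ![0, -2, -1, -2],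
    ![-1, -1, -1, -1],
    ![-2, -1, 1, 2]],
   ![![0, 1, 1, 0],
    ![-1, 1, 0, 1],
    ![-1, -1, 2, 1],
    ![1, 0, 0, 1],
    ![2, 1, -2, 3],
    ![0, -1, 2, 1],
    ![-2, -1, 1, 2],
    ![-1, 0, 1, 1]]]

/-- affine dependences showing that the other pairs are not edges -/
def uP : Fin 8 → Fin 8 → Fin 8 → ℤ :=
  ![![![0, 0, 0, 0, 0, 0, 0, 0],
    ![0, 0, 0, 0, 0, 0, 0, 0],
    ![0, 0, 0, 0, 0, 0, 0, 0],
    ![-5, 3, 0, -8, 0, 7, 1, 2],
    ![-1, 2, 0, 0, -2, 1, 0, 0],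
    ![0, 0, 0, 0, 0, 0, 0, 0],
    ![-2, 1, 2, 0, 0, 0, -1, 0],
    ![0, 0, 0, 0, 0, 0, 0, 0]],
   ![![0, 0, 0, 0, 0, 0, 0, 0],
    ![0, 0, 0, 0, 0, 0, 0, 0],
    ![2, -1, -2, 0, 0, 0, 1, 0],
    ![0, -5, 1, -4, 7, 0, 0, 1],
    ![0, 0, 0, 0, 0, 0, 0, 0],
    ![1, -2, 0, 0, 2, -1, 0, 0],
    ![0, 0, 0, 0, 0, 0, 0, 0],
    ![0, 0, 0, 0, 0, 0, 0, 0]],
   ![![0, 0, 0, 0, 0, 0, 0, 0],
    ![2, -1, -2, 0, 0, 0, 1, 0],
    ![0, 0, 0, 0, 0, 0, 0, 0],
    ![1, 0, -6, -8, 0, 7, 4, 2],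
    ![3, 0, -4, 0, -2, 1, 2, 0],
    ![0, 0, 0, 0, 0, 0, 0, 0],
    ![0, 0, 0, 0, 0, 0, 0, 0],
    ![0, 0, 0, 0, 0, 0, 0, 0]],
   ![![-5, 3, 0, -8, 0, 7, 1, 2],
    ![0, -5, 1, -4, 7, 0, 0, 1],
    ![1, 0, -6, -8, 0, 7, 4, 2],
    ![0, 0, 0, 0, 0, 0, 0, 0],
    ![0, 0, 0, 0, 0, 0, 0, 0],
    ![0, 0, 0, 0, 0, 0, 0, 0],
    ![0, 0, 0, 0, 0, 0, 0, 0],
    ![0, 0, 0, 0, 0, 0, 0, 0]],
   ![![-1, 2, 0, 0, -2, 1, 0, 0],
    ![0, 0, 0, 0, 0, 0, 0, 0],
    ![3, 0, -4, 0, -2, 1, 2, 0],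
    ![0, 0, 0, 0, 0, 0, 0, 0],
    ![0, 0, 0, 0, 0, 0, 0, 0],
    ![0, 0, 0, 0, 0, 0, 0, 0],
    ![0, 0, 0, 0, 0, 0, 0, 0],
    ![0, 0, 0, 0, 0, 0, 0, 0]],
   ![![0, 0, 0, 0, 0, 0, 0, 0],
    ![1, -2, 0, 0, 2, -1, 0, 0],
    ![0, 0, 0, 0, 0, 0, 0, 0],
    ![0, 0, 0, 0, 0, 0, 0, 0],
    ![0, 0, 0, 0, 0, 0, 0, 0],
    ![0, 0, 0, 0, 0, 0, 0, 0],
    ![0, 0, 0, 0, 0, 0, 0, 0],
    ![0, 0, 0, 0, 0, 0, 0, 0]],
   ![![-2, 1, 2, 0, 0, 0, -1, 0],
    ![0, 0, 0, 0, 0, 0, 0, 0],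
    ![0, 0, 0, 0, 0, 0, 0, 0],
    ![0, 0, 0, 0, 0, 0, 0, 0],
    ![0, 0, 0, 0, 0, 0, 0, 0],
    ![0, 0, 0, 0, 0, 0, 0, 0],
    ![0, 0, 0, 0, 0, 0, 0, 0],
    ![0, 0, 0, 0, 0, 0, 0, 0]],
   ![![0, 0, 0, 0, 0, 0, 0, 0],
    ![0, 0, 0, 0, 0, 0, 0, 0],
    ![0, 0, 0, 0, 0, 0, 0, 0],
    ![0, 0, 0, 0, 0, 0, 0, 0],
    ![0, 0, 0, 0, 0, 0, 0, 0],
    ![0, 0, 0, 0, 0, 0, 0, 0],
    ![0, 0, 0, 0, 0, 0, 0, 0],
    ![0, 0, 0, 0, 0, 0, 0, 0]]]

/-- the vertices of the Q polytope -/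
def xQ : Fin 8 → Fin 4 → ℤ :=
  ![![1, 2, 1, 1],
    ![0, 2, 2, 0],
    ![1, 1, 0, 1],
    ![2, 1, 0, 1],
    ![0, 0, 2, 0],
    ![2, 1, 0, 2],
    ![0, 0, 0, 0],
    ![2, 2, 0, 0]]

/-- exposing functionals of vertices and edges -/
def fQ : Fin 8 → Fin 8 → Fin 4 → ℤ :=
  ![![![-2, 2, -1, 2],
    ![-1, 1, 0, 1],
    ![-2, 2, -2, 1],
    ![0, 0, 0, 0],
    ![0, 0, 0, 0],
    ![0, 1, 0, 1],
    ![0, 0, 0, 0],
    ![-1, 3, -2, 1]],
   ![![-1, 1, 0, 1],
    ![-1, 1, 0, -1],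
    ![0, 0, 0, 0],
    ![0, 0, 0, 0],
    ![-1, 0, 1, -1],
    ![0, 0, 0, 0],
    ![-2, 1, -1, -2],
    ![0, 1, 0, -1]],
   ![![-2, 2, -2, 1],
    ![0, 0, 0, 0],
    ![-3, 2, -3, 2],
    ![0, 0, 0, 0],
    ![0, 0, 0, 0],
    ![-2, 1, -2, 2],
    ![-2, 1, -2, 1],
    ![-2, 3, -4, 1]],
   ![![0, 0, 0, 0],
    ![0, 0, 0, 0],
    ![0, 0, 0, 0],
    ![2, -2, -2, -1],
    ![3, -3, 1, -1],
    ![1, -1, -1, 0],
    ![2, -3, -3, -1],
    ![2, -1, -2, -1]],
   ![![0, 0, 0, 0],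
    ![-1, 0, 1, -1],
    ![0, 0, 0, 0],
    ![3, -3, 1, -1],
    ![-1, -1, 1, -1],
    ![0, -2, 1, 2],
    ![-1, -1, 0, -1],
    ![2, -1, 1, -2]],
   ![![0, 1, 0, 1],
    ![0, 0, 0, 0],
    ![-2, 1, -2, 2],
    ![1, -1, -1, 0],
    ![0, -2, 1, 2],
    ![0, -1, -1, 1],
    ![-1, -2, -2, 2],
    ![0, 2, -2, 1]],
   ![![0, 0, 0, 0],
    ![-2, 1, -1, -2],
    ![-2, 1, -2, 1],
    ![2, -3, -3, -1],
    ![-1, -1, 0, -1],
    ![-1, -2, -2, 2],
    ![-1, -1, -1, -1],
    ![0, 0, -1, -1]],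
   ![![-1, 3, -2, 1],
    ![0, 1, 0, -1],
    ![-2, 3, -4, 1],
    ![2, -1, -2, -1],
    ![2, -1, 1, -2],
    ![0, 2, -2, 1],
    ![0, 0, -1, -1],
    ![0, 1, -1, -1]]]

/-- affine dependences showing that the other pairs are not edges -/
def uQ : Fin 8 → Fin 8 → Fin 8 → ℤ :=
  ![![![0, 0, 0, 0, 0, 0, 0, 0],
    ![0, 0, 0, 0, 0, 0, 0, 0],
    ![0, 0, 0, 0, 0, 0, 0, 0],
    ![-2, 1, 0, -2, 0, 2, 0, 1],
    ![-4, 3, 0, 0, -1, 2, 0, 0],
    ![0, 0, 0, 0, 0, 0, 0, 0],
    ![-2, 1, 2, 0, 0, 0, -1, 0],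
    ![0, 0, 0, 0, 0, 0, 0, 0]],
   ![![0, 0, 0, 0, 0, 0, 0, 0],
    ![0, 0, 0, 0, 0, 0, 0, 0],
    ![2, -1, -2, 0, 0, 0, 1, 0],
    ![2, -2, 0, -2, 1, 0, 0, 1],
    ![0, 0, 0, 0, 0, 0, 0, 0],
    ![4, -3, 0, 0, 1, -2, 0, 0],
    ![0, 0, 0, 0, 0, 0, 0, 0],
    ![0, 0, 0, 0, 0, 0, 0, 0]],
   ![![0, 0, 0, 0, 0, 0, 0, 0],
    ![2, -1, -2, 0, 0, 0, 1, 0],
    ![0, 0, 0, 0, 0, 0, 0, 0],
    ![0, 0, -2, -2, 0, 2, 1, 1],
    ![0, 1, -4, 0, -1, 2, 2, 0],
    ![0, 0, 0, 0, 0, 0, 0, 0],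
    ![0, 0, 0, 0, 0, 0, 0, 0],
    ![0, 0, 0, 0, 0, 0, 0, 0]],
   ![![-2, 1, 0, -2, 0, 2, 0, 1],
    ![2, -2, 0, -2, 1, 0, 0, 1],
    ![0, 0, -2, -2, 0, 2, 1, 1],
    ![0, 0, 0, 0, 0, 0, 0, 0],
    ![0, 0, 0, 0, 0, 0, 0, 0],
    ![0, 0, 0, 0, 0, 0, 0, 0],
    ![0, 0, 0, 0, 0, 0, 0, 0],
    ![0, 0, 0, 0, 0, 0, 0, 0]],
   ![![-4, 3, 0, 0, -1, 2, 0, 0],
    ![0, 0, 0, 0, 0, 0, 0, 0],
    ![0, 1, -4, 0, -1, 2, 2, 0],
    ![0, 0, 0, 0, 0, 0, 0, 0],
    ![0, 0, 0, 0, 0, 0, 0, 0],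
    ![0, 0, 0, 0, 0, 0, 0, 0],
    ![0, 0, 0, 0, 0, 0, 0, 0],
    ![0, 0, 0, 0, 0, 0, 0, 0]],
   ![![0, 0, 0, 0, 0, 0, 0, 0],
    ![4, -3, 0, 0, 1, -2, 0, 0],
    ![0, 0, 0, 0, 0, 0, 0, 0],
    ![0, 0, 0, 0, 0, 0, 0, 0],
    ![0, 0, 0, 0, 0, 0, 0, 0],
    ![0, 0, 0, 0, 0, 0, 0, 0],
    ![0, 0, 0, 0, 0, 0, 0, 0],
    ![0, 0, 0, 0, 0, 0, 0, 0]],
   ![![-2, 1, 2, 0, 0, 0, -1, 0],
    ![0, 0, 0, 0, 0, 0, 0, 0],
    ![0, 0, 0, 0, 0, 0, 0, 0],
    ![0, 0, 0, 0, 0, 0, 0, 0],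
    ![0, 0, 0, 0, 0, 0, 0, 0],
    ![0, 0, 0, 0, 0, 0, 0, 0],
    ![0, 0, 0, 0, 0, 0, 0, 0],
    ![0, 0, 0, 0, 0, 0, 0, 0]],
   ![![0, 0, 0, 0, 0, 0, 0, 0],
    ![0, 0, 0, 0, 0, 0, 0, 0],
    ![0, 0, 0, 0, 0, 0, 0, 0],
    ![0, 0, 0, 0, 0, 0, 0, 0],
    ![0, 0, 0, 0, 0, 0, 0, 0],
    ![0, 0, 0, 0, 0, 0, 0, 0],
    ![0, 0, 0, 0, 0, 0, 0, 0],
    ![0, 0, 0, 0, 0, 0, 0, 0]]]

/-- combinations giving multiples of the unit vectors -/
def cP : Fin 4 → Fin 8 → ℤ :=
  ![![0, -4, 0, -4, 6, 1, 0, 1],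
    ![0, -3, 0, -4, 5, 1, 0, 1],
    ![0, 1, 0, 1, -2, 0, 0, 0],
    ![0, 1, 0, 2, -2, -1, 0, 0]]

/-- combinations giving multiples of the unit vectors -/
def cQ : Fin 4 → Fin 8 → ℤ :=
  ![![0, 0, -2, 2, 0, 0, 0, 0],
    ![0, 1, 0, 0, -1, 0, 0, 0],
    ![2, -1, -2, 0, 1, 0, 0, 0],
    ![4, -3, 0, -2, 1, 0, 0, 0]]

lemma certP : Cert (pt xP) adj := by
  apply cert_of_data xP fP uP adj <;> decide +kernel

lemma certQ : Cert (pt xQ) adj := by
  apply cert_of_data xQ fQ uQ adj <;> decide +kernel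

/-- `s` is compatible with the image `t` of the vertex `m`, given the images `s` of the vertices
`m - 1, ..., 0` -/
def compat : List (Fin 8) → ℕ → Fin 8 → Fin 8 → Bool
  | [], _, _, _ => true
  | (a :: s), k, m, t => (decide (t ≠ a) && (adj t a == adj m (Fin.ofNat 8 k))) &&
      compat s (k - 1) m t

/-- search for partial automorphisms: `s` lists the images of the vertices `m - 1, ..., 0` -/
def search : ℕ → List (Fin 8) → ℕ → Bool
  | 0, s, _ => decide (s = [7, 6, 5, 4, 3, 2, 1, 0])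
  | (n + 1), s, m => (List.finRange 8).all fun t =>
      !(compat s (m - 1) (Fin.ofNat 8 m) t) || search n (t :: s) (m + 1)

lemma search_true : search 8 [] 0 = true := by decide +kernel

lemma compat_true (τ : Fin 8 → Fin 8) (hinj : Function.Injective τ)
    (h : ∀ i j, adj (τ i) (τ j) = adj i j) (m : ℕ) (hm : m < 8) :
    ∀ k, k ≤ m → compat (((List.range k).map fun i => τ (Fin.ofNat 8 i)).reverse) (k - 1)
      (Fin.ofNat 8 m) (τ (Fin.ofNat 8 m)) = true := by
  intro k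
  induction k with
  | zero => intro _; rfl
  | succ k ih =>
    intro hk
    rw [List.range_succ, List.map_append, List.reverse_append]
    simp only [List.map_cons, List.map_nil, List.reverse_cons, List.reverse_nil, List.nil_append,
      List.cons_append, compat, Nat.add_sub_cancel]
    rw [ih (by omega), Bool.and_true, Bool.and_eq_true]
    constructor
    · rw [decide_eq_true_eq]
      intro h2
      have h3 := hinj h2
      have h4 := congrArg Fin.val h3
      simp [Fin.ofNat, Nat.mod_eq_of_lt hm, Nat.mod_eq_of_lt (show k < 8 by omega)] at h4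
      omega
    · rw [h]; simp

lemma search_sound (τ : Fin 8 → Fin 8) (hinj : Function.Injective τ)
    (h : ∀ i j, adj (τ i) (τ j) = adj i j) : ∀ (n m : ℕ), n + m = 8 →
    search n (((List.range m).map fun i => τ (Fin.ofNat 8 i)).reverse) m = true →
    (((List.range 8).map fun i => τ (Fin.ofNat 8 i)).reverse) = [7, 6, 5, 4, 3, 2, 1, 0] := by
  intro n
  induction n with
  | zero =>
    intro m hm hs
    have : m = 8 := by omega
    subst this
    simpa [search] using hs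
  | succ n ih =>
    intro m hm hs
    apply ih (m + 1) (by omega)
    simp only [search, List.all_eq_true] at hs
    have h1 := hs (τ (Fin.ofNat 8 m)) (List.mem_finRange _)
    rw [compat_true τ hinj h m (by omega) m le_rfl] at h1
    rw [List.range_succ, List.map_append, List.reverse_append]
    simpa using h1

lemma asym (τ : Fin 8 → Fin 8) (hinj : Function.Injective τ)
    (h : ∀ i j, adj (τ i) (τ j) = adj i j) : ∀ i, τ i = i := by
  have h1 := search_sound τ hinj h 8 0 rfl search_true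
  have h2 : [τ 7, τ 6, τ 5, τ 4, τ 3, τ 2, τ 1, τ 0] = [7, 6, 5, 4, 3, 2, 1, 0] := h1
  simp only [List.cons.injEq] at h2
  obtain ⟨h7, h6, h5, h4, h3, h2, h1, h0, -⟩ := h2
  intro i
  fin_cases i <;> assumption

end numeric

section final

variable {n m N : ℕ} {p : Fin N → Sp n} {q : Fin N → Sp m} {adj : Fin N → Fin N → Bool}

/-- the `1`-skeleton as a polyhedral complex -/
def cxOf (hc : Cert p adj) : Cx n where
  members := skel 1 (poly p)
  finite := by
    apply (Set.finite_range (fun s : Finset (Fin N) => hull p s)).subset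
    intro F hF
    exact ⟨ind p F, (eq_hull p hF.1).symm⟩
  polytope := by
    intro F hF
    classical
    refine ⟨(ind p F).image p, ?_⟩
    rw [Finset.coe_image]
    exact eq_hull p hF.1
  face_mem := by
    intro F hF G hG
    rcases G.eq_empty_or_nonempty with h | h
    · subst h
      have h0 := (skel_of_clq hc (s := ∅) ⟨by simp, by simp⟩).1
      have h3 : hull p (∅ : Finset (Fin N)) = ∅ := by simp [hull]
      rwa [h3] at h0
    · have hF' := eq_hull p hF.1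
      have hG' : IsExposed ℝ (convexHull ℝ (p '' (ind p F : Set (Fin N)))) G := by
        have h1 : convexHull ℝ (p '' (ind p F : Set (Fin N))) = F := hF'.symm
        rw [h1]; exact hG
      obtain ⟨l, M, h1, h2, h3⟩ := face_data hG' h
      have hsub : ind p G ⊆ ind p F := by
        intro k hk
        rw [mem_ind] at hk ⊢
        exact hG.subset hk
      have h4 : p '' (ind p F : Set (Fin N)) ∩ G = p '' (ind p G : Set (Fin N)) := by
        ext x
        constructor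
        · rintro ⟨⟨k, hk, rfl⟩, hk'⟩
          exact ⟨k, by simpa using (mem_ind p G k).2 hk', rfl⟩
        · rintro ⟨k, hk, rfl⟩
          have hk' : k ∈ ind p G := by simpa using hk
          exact ⟨⟨k, by simpa using hsub hk', rfl⟩, (mem_ind p G k).1 hk'⟩
      rw [h4] at h3
      have hclq := clq_of_skel hc hF
      have hclq' : Clq adj (ind p G) := by
        refine ⟨(Finset.card_le_card hsub).trans hclq.1, ?_⟩
        intro i hi j hj hij
        exact hclq.2 i (hsub hi) j (hsub hj) hij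
      have h5 := (skel_of_clq hc hclq').1
      have h6 : hull p (ind p G) = G := h3.symm
      rwa [h6] at h5
  inter_face := by
    intro F hF G hG
    have h := hF.1.inter hG.1
    exact ⟨h.mono hF.1.subset Set.inter_subset_left, h.mono hG.1.subset Set.inter_subset_right⟩

lemma cxOf_dim (hc : Cert p adj) (h : ∃ i j, adj i j = true) : IsKComplex 1 (cxOf hc) := by
  obtain ⟨i, j, hij⟩ := h
  refine ⟨?_, fun F hF => hF.2⟩
  have hfam := fam_of_subfamily hc (skel 1 (poly p)) (fun F hF => hF.1) le_rfl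
  obtain ⟨hne, F, hF, hk⟩ := (hfam.edge i j).1 hij
  have hi : p i ∈ F := (hk i).2 (Or.inl rfl)
  have hj : p j ∈ F := (hk j).2 (Or.inr rfl)
  refine ⟨F, hF, ⟨_, hi⟩, ?_⟩
  apply le_antisymm hF.2
  by_contra hlt
  have h0 : dim F = 0 := by
    have : dim F < 1 := not_le.1 hlt
    omega
  unfold dim at h0
  rw [Submodule.finrank_eq_zero] at h0
  have h1 : p i -ᵥ p j ∈ vectorSpan ℝ F := vsub_mem_vectorSpan ℝ hi hj
  rw [h0, Submodule.mem_bot, vsub_eq_sub, sub_eq_zero] at h1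
  obtain ⟨l, hl⟩ := hc.vert i
  have := hl j hne.symm
  rw [h1] at this
  exact lt_irrefl _ this

/-- two certified polytopes with the same graph have equivalent `1`-skeleta -/
noncomputable def skelEquiv (hp : Cert p adj) (hq : Cert q adj) :
    CombEquiv (skel 1 (poly p)) (skel 1 (poly q)) where
  toFun F := ⟨hull q (ind p F.1), (skel_of_clq hq (clq_of_skel hp F.2)).1⟩
  invFun F := ⟨hull p (ind q F.1), (skel_of_clq hp (clq_of_skel hq F.2)).1⟩
  left_inv F := by
    apply Subtype.ext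
    show hull p (ind q (hull q (ind p F.1))) = F.1
    rw [(skel_of_clq hq (clq_of_skel hp F.2)).2]
    exact (eq_hull p F.2.1).symm
  right_inv F := by
    apply Subtype.ext
    show hull q (ind p (hull p (ind q F.1))) = F.1
    rw [(skel_of_clq hp (clq_of_skel hq F.2)).2]
    exact (eq_hull q F.2.1).symm
  map_rel_iff' := by
    intro F G
    have hF := skel_of_clq hq (clq_of_skel hp F.2)
    have hG := skel_of_clq hq (clq_of_skel hp G.2)
    show hull q (ind p F.1) ⊆ hull q (ind p G.1) ↔ F.1 ⊆ G.1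
    rw [subset_iff q hF.1.1 hG.1.1, subset_iff p F.2.1 G.2.1]
    have h1 : ∀ k, q k ∈ hull q (ind p F.1) ↔ p k ∈ F.1 := by
      intro k
      rw [← mem_ind q, hF.2, mem_ind]
    have h2 : ∀ k, q k ∈ hull q (ind p G.1) ↔ p k ∈ G.1 := by
      intro k
      rw [← mem_ind q, hG.2, mem_ind]
    simp only [h1, h2]

lemma not_equiv : ¬ Nonempty (CombEquiv (faces (poly (pt xP))) (faces (poly (pt xQ)))) := by
  rintro ⟨Θ⟩
  have hP := fam_of_subfamily certP (faces (poly (pt xP))) le_rfl (fun F hF => hF.1)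
  have hQ := fam_of_subfamily certQ (faces (poly (pt xQ))) le_rfl (fun F hF => hF.1)
  have hr := rigid hP hQ asym Θ
  -- the facet of the second polytope with vertices 0, 1, 3, 4, 5, 7
  have hface := exposed_of_functional (pt xQ) {0, 1, 3, 4, 5, 7} (lin ![1, 0, 1, 0]) 2 (by
    intro k hk
    rw [lin_pt]
    have : ∀ k ∈ ({0, 1, 3, 4, 5, 7} : Finset (Fin 8)),
      ∑ c, (![1, 0, 1, 0] : Fin 4 → ℤ) c * xQ k c = 2 := by decide +kernel
    rw [this k hk]; norm_num) (by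
    intro k hk
    rw [lin_pt]
    have : ∀ k ∉ ({0, 1, 3, 4, 5, 7} : Finset (Fin 8)),
      ∑ c, (![1, 0, 1, 0] : Fin 4 → ℤ) c * xQ k c < 2 := by decide +kernel
    exact_mod_cast this k hk)
  set G : faces (poly (pt xQ)) := ⟨_, hface.1⟩ with hG
  have hGk : ∀ k, pt xQ k ∈ G.1 ↔ k ∈ ({0, 1, 3, 4, 5, 7} : Finset (Fin 8)) := by
    intro k
    rw [← mem_ind (pt xQ)]
    show k ∈ ind (pt xQ) (hull (pt xQ) {0, 1, 3, 4, 5, 7}) ↔ _
    rw [hface.2]
  have hFk : ∀ k, pt xP k ∈ (Θ.symm G).1 ↔ k ∈ ({0, 1, 3, 4, 5, 7} : Finset (Fin 8)) := by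
    intro k
    rw [hr (Θ.symm G) k, Θ.apply_symm_apply, hGk]
  have h1 := (hFk 1).2 (by decide)
  have h3 := (hFk 3).2 (by decide)
  have h4 := (hFk 4).2 (by decide)
  have h5 := (hFk 5).2 (by decide)
  have h7 := (hFk 7).2 (by decide)
  have h6 : pt xP 6 ∉ (Θ.symm G).1 := fun h => absurd ((hFk 6).1 h) (by decide)
  have hexp : IsExposed ℝ (poly (pt xP)) (Θ.symm G).1 := (Θ.symm G).2
  obtain ⟨l, M, -, hl, -⟩ := face_data hexp ⟨_, h1⟩
  have hval : ∀ k, pt xP k ∈ (Θ.symm G).1 → l (pt xP k) = M := by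
    intro k hk
    rw [hl] at hk
    exact hk.2
  apply h6
  rw [hl]
  refine ⟨subset_convexHull ℝ _ ⟨6, rfl⟩, ?_⟩
  have hcomb : pt xP 6 = (7 : ℝ) • pt xP 1 + (8 : ℝ) • pt xP 3 - (10 : ℝ) • pt xP 4 -
      (2 : ℝ) • pt xP 5 - (2 : ℝ) • pt xP 7 := by
    have h8 : ∀ c, xP 6 c = 7 * xP 1 c + 8 * xP 3 c - 10 * xP 4 c - 2 * xP 5 c - 2 * xP 7 c := by
      decide +kernel
    ext c
    have h9 : ((xP 6 c : ℤ) : ℝ) =
        ((7 * xP 1 c + 8 * xP 3 c - 10 * xP 4 c - 2 * xP 5 c - 2 * xP 7 c : ℤ) : ℝ) := by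
      rw [h8 c]
    push_cast at h9
    simpa [pt] using h9
  rw [hcomb]
  simp only [map_sub, map_add, map_smul, smul_eq_mul, hval 1 h1, hval 3 h3, hval 4 h4, hval 5 h5,
    hval 7 h7]
  ring

/-- There are `k`, `d` and a `k`-complex which is strongly `d`-ambiguous but not weakly
`d`-ambiguous; the proof gives `k = 1`, `d = 4` and the graph of a polytope with 8 vertices. -/
theorem result : ∃ (k d n : ℕ) (C : Cx n),
    IsKComplex k C ∧ StronglyAmbiguous k d C ∧ ¬ WeaklyAmbiguous k d C := by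
  refine ⟨1, 4, 4, cxOf certP, cxOf_dim certP ⟨0, 1, rfl⟩, ?_, ?_⟩
  · refine ⟨4, 4, poly (pt xP), poly (pt xQ), ?_, ?_, not_equiv, ⟨OrderIso.refl _⟩,
      ⟨skelEquiv certP certQ⟩, ⟨skelEquiv certP certQ⟩⟩
    · exact poly_polytope xP (span_top xP cP 1 (by norm_num) (by decide +kernel)
        (by decide +kernel))
    · exact poly_polytope xQ (span_top xQ cQ 2 (by norm_num) (by decide +kernel)
        (by decide +kernel))
  · rintro ⟨a, P, -, φ, ψ, h⟩
    apply h
    refine ⟨OrderIso.refl _, ?_⟩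
    intro F
    have hfam := fam_of_subfamily certP (skel 1 (poly (pt xP))) (fun F hF => hF.1) le_rfl
    have hr := rigid hfam hfam asym (φ.trans ψ.symm)
    have hfix : ∀ G : (cxOf certP).members, ψ.symm (φ G) = G := by
      intro G
      apply Subtype.ext
      apply Set.Subset.antisymm
      · rw [hfam.sub _ (ψ.symm (φ G)).2 _ G.2]
        intro k hk
        exact (hr G k).2 hk
      · rw [hfam.sub _ G.2 _ (ψ.symm (φ G)).2]
        intro k hk
        exact (hr G k).1 hk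
    have h2 : φ (ψ.symm F) = F := by
      have h3 := hfix (ψ.symm F)
      have h4 := congrArg ψ h3
      rw [ψ.apply_symm_apply, ψ.apply_symm_apply] at h4
      exact h4
    rw [h2]
    rfl

end final

end Pool.Agent.Results.MP_745574_co.StrongNotWeak
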